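import Pool.Agent.H356R3.FM.DR5

set_option autoImplicit false

/-!
Condition (2) of the question (integral and pure Weil-Deligne representations away from `l`)
does not imply condition (1) (de Rham at `l` with nonnegative Hodge-Tate weights): the
one-dimensional representation `<χ>^{-1/2}` of the absolute Galois group of `ℚ` is unramified
outside `l`, integral and pure of weight `1` at every prime `q ≠ l`, but is not de Rham at `l`.
-/

namespace Pool.Agent.Results.MP_395897_nt.HalfTwistBdR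

open Pool.Agent.H356R3.FM

theorem result (l : ℕ) [Fact l.Prime] (hl2 : l ≠ 2) :
    ∃ ρ : GK ℚ →* (PadicAlgCl l)ˣ, Continuous ρ ∧
      (∀ (q : ℕ) [Fact q.Prime], q ≠ l → ∀ ι : Emb ℚ ℚ_[q],
        (∀ σ, IsInertia q σ → ρ (toGlobal ι σ) = 1) ∧
        (∀ σ, IsArithFrob q σ →
          IsWeilInteger q 1 ((ρ (toGlobal ι σ⁻¹) : (PadicAlgCl l)ˣ) : PadicAlgCl l))) ∧
      (∀ ι : Emb ℚ ℚ_[l], DdR l (ρ.comp (toGlobal ι)) = ⊥ ∧
        ¬ IsDeRham l (ρ.comp (toGlobal ι))) := by
  refine ⟨rho l hl2, rho_continuous l hl2, ?_, ?_⟩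
  · intro q hq hql ι
    exact ⟨fun σ hσ => rho_unramified l hl2 q hql ι σ hσ, fun σ hσ => rho_frob l hl2 q hql ι σ hσ⟩
  · intro ι
    exact ⟨DdR_rho l hl2 ι, not_isDeRham l hl2 ι⟩

end Pool.Agent.Results.MP_395897_nt.HalfTwistBdR
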